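import Pool.Agent.H30.CH.Comp

/-!
# The walk with a random time

`n`, `V`, `T` are random, `n` is almost independent of `(V, T)` and `n + g_T(V)` is almost independent
of `V` given `T`. One step of the walk keeps the point `(T, n + g_T(V))` and draws `V` anew. The time
is drawn afresh in every step and is not part of the context.
-/

set_option autoImplicit false
set_option linter.unusedSectionVars false
set_option linter.unusedVariables false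

namespace Pool.RC21

open Finset
open Pool.Agent.H49.Ent Pool.Agent.H32.Dense Pool.CH30

variable {Ω₀ : Type} [Fintype Ω₀] {G B A τ : Type} [AddCommGroup G]
  {p₀ : Ω₀ → ℝ} {b₀ : Ω₀ → B} {n₀ : Ω₀ → G}

/-- The point. -/
def pt (V : Ω₀ → A) (T : Ω₀ → τ) (g : τ → A → G) (n₀ : Ω₀ → G) (b₀ : Ω₀ → B) (ω : Ω₀) :
    G × (τ × B) := (n₀ ω + g (T ω) (V ω), (T ω, b₀ ω))

/-- The law of two labels through one point. -/
noncomputable def pE (p₀ : Ω₀ → ℝ) (V : Ω₀ → A) (T : Ω₀ → τ) (g : τ → A → G) (n₀ : Ω₀ → G)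
    (b₀ : Ω₀ → B) : Ω₀ × Ω₀ → ℝ :=
  glue p₀ p₀ (pt V T g n₀ b₀) (pt V T g n₀ b₀)

section

variable (hp : ∀ ω, 0 ≤ p₀ ω) (V : Ω₀ → A) (T : Ω₀ → τ) (g : τ → A → G)

include hp in
theorem pE_nn : ∀ w, 0 ≤ pE p₀ V T g n₀ b₀ w := glue_nonneg hp hp

include hp in
theorem pE_eq {w : Ω₀ × Ω₀} (hw : 0 < pE p₀ V T g n₀ b₀ w) :
    n₀ w.1 + g (T w.1) (V w.1) = n₀ w.2 + g (T w.2) (V w.2) ∧ T w.1 = T w.2 ∧ b₀ w.1 = b₀ w.2 := by
  have := glue_eq hw hp hp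
  simpa only [pt, Prod.mk.injEq] using this

include hp in
theorem pE_fst : Push (pE p₀ V T g n₀ b₀) p₀ Prod.fst := push_fst hp (fun _ => rfl)

include hp in
theorem pE_snd : Push (pE p₀ V T g n₀ b₀) p₀ Prod.snd := push_snd hp (fun _ => rfl)

include hp in
theorem pE_disp {w : Ω₀ × Ω₀} (hw : 0 < pE p₀ V T g n₀ b₀ w) :
    n₀ w.2 - n₀ w.1 = g (T w.1) (V w.1) - g (T w.1) (V w.2) := by
  have h := pE_eq hp V T g hw
  have := h.1
  rw [← h.2.1] at this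
  rw [sub_eq_sub_iff_add_eq_add, ← this, add_comm]

/-- One step. -/
noncomputable def stepT : Blk p₀ b₀ n₀ where
  Ω := Ω₀ × Ω₀
  p := pE p₀ V T g n₀ b₀
  nn := pE_nn hp V T g
  b := fun w => b₀ w.1
  x := fun w => n₀ w.1
  y := fun w => n₀ w.2
  lx := fun z => (pE_fst hp V T g).law (fun ω => (n₀ ω, b₀ ω)) z
  ly := fun z => by
    rw [← (pE_snd hp V T g).law (fun ω => (n₀ ω, b₀ ω)) z]
    exact law_supp (pE_nn hp V T g) (fun w hw => by rw [(pE_eq hp V T g hw).2.2]) z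

include hp in
/-- The joint entropy of the point and the two labels. -/
theorem pE_H : H (pE p₀ V T g n₀ b₀) (fun w => (n₀ w.1, (V w.1, (V w.2, (T w.1, b₀ w.1))))) =
    2 * H p₀ (fun ω => (n₀ ω, (V ω, (T ω, b₀ ω)))) - H p₀ (pt V T g n₀ b₀) := by
  have h0 := pE_nn (b₀ := b₀) (n₀ := n₀) hp V T g
  have s3 : H (pE p₀ V T g n₀ b₀) (fun w => (n₀ w.1, (V w.1, (V w.2, (T w.1, b₀ w.1))))) =
      H p₀ (fun ω => (V ω, pt V T g n₀ b₀ ω)) + H p₀ (fun ω => (V ω, pt V T g n₀ b₀ ω)) -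
        H p₀ (pt V T g n₀ b₀) := by
    rw [← H_glue_pair hp hp (fun _ => rfl) (X := fun ω => (V ω, pt V T g n₀ b₀ ω))
      (Y := fun ω => (V ω, pt V T g n₀ b₀ ω))
      (fun _ _ _ _ h => (Prod.ext_iff.mp h).2) (fun _ _ _ _ h => (Prod.ext_iff.mp h).2)]
    refine H_congr h0 ?_ ?_
    · intro w w' hw hw' h
      simp only [pt, Prod.mk.injEq] at h ⊢
      obtain ⟨⟨a1, a2, a3, a4⟩, a5, a6, a7, a8⟩ := h
      rw [a1, a3] at a2
      exact ⟨add_left_injective _ a2, a1, a5, a3, a4⟩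
    · intro w w' hw hw' h
      simp only [pt, Prod.mk.injEq] at h ⊢
      have e := pE_eq hp V T g hw
      have e' := pE_eq hp V T g hw'
      rw [← e.1, ← e.2.1, ← e.2.2, ← e'.1, ← e'.2.1, ← e'.2.2]
      obtain ⟨a1, a2, a3, a4, a5⟩ := h
      rw [a1, a2, a4]
      exact ⟨⟨rfl, rfl, rfl, a5⟩, a3, rfl, rfl, a5⟩
  have s8 : H p₀ (fun ω => (V ω, pt V T g n₀ b₀ ω)) =
      H p₀ (fun ω => (n₀ ω, (V ω, (T ω, b₀ ω)))) := by
    refine H_congr hp ?_ ?_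
    · intro w w' _ _ h
      simp only [pt, Prod.mk.injEq] at h ⊢
      obtain ⟨a1, a2, a3, a4⟩ := h
      rw [a1, a2, a3]
      exact ⟨rfl, rfl, rfl, a4⟩
    · intro w w' _ _ h
      simp only [pt, Prod.mk.injEq] at h ⊢
      obtain ⟨a1, a2, a3, a4⟩ := h
      rw [a1, a3] at a2
      exact ⟨add_left_injective _ a2, a1, a3, a4⟩
  rw [s3, s8]
  ring

variable {d : ℝ}

include hp in
/-- The displacement data hardly depend on the start. -/
theorem pE_dep (h1 : CH p₀ n₀ b₀ - CH p₀ n₀ (fun ω => (V ω, (T ω, b₀ ω))) ≤ d)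
    (h2 : CH p₀ (fun ω => n₀ ω + g (T ω) (V ω)) (fun ω => (T ω, b₀ ω)) -
      CH p₀ (fun ω => n₀ ω + g (T ω) (V ω)) (fun ω => (V ω, (T ω, b₀ ω))) ≤ d) :
    CH p₀ n₀ b₀ - 2 * d ≤
      CH (pE p₀ V T g n₀ b₀) (fun w => n₀ w.1) (fun w => (V w.1, (V w.2, (T w.1, b₀ w.1)))) := by
  have h0 := pE_nn (b₀ := b₀) (n₀ := n₀) hp V T g
  have s3 := pE_H (b₀ := b₀) (n₀ := n₀) hp V T g
  have s4 := sub3 h0 (fun w => V w.1) (fun w => V w.2) (fun w => (T w.1, b₀ w.1))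
  have s5 : H (pE p₀ V T g n₀ b₀) (fun w => (V w.1, (T w.1, b₀ w.1))) =
      H p₀ (fun ω => (V ω, (T ω, b₀ ω))) :=
    (pE_fst hp V T g).H (fun ω => (V ω, (T ω, b₀ ω)))
  have s6 : H (pE p₀ V T g n₀ b₀) (fun w => (V w.2, (T w.1, b₀ w.1))) =
      H p₀ (fun ω => (V ω, (T ω, b₀ ω))) := by
    rw [← (pE_snd hp V T g (b₀ := b₀) (n₀ := n₀)).H (fun ω => (V ω, (T ω, b₀ ω)))]
    exact H_supp h0 (fun w hw => by
      have := pE_eq hp V T g hw
      rw [this.2.1, this.2.2])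
  have s7 : H (pE p₀ V T g n₀ b₀) (fun w => (T w.1, b₀ w.1)) = H p₀ (fun ω => (T ω, b₀ ω)) :=
    (pE_fst hp V T g).H (fun ω => (T ω, b₀ ω))
  have s9 : H p₀ (fun ω => (n₀ ω + g (T ω) (V ω), (V ω, (T ω, b₀ ω)))) =
      H p₀ (fun ω => (n₀ ω, (V ω, (T ω, b₀ ω)))) := by
    refine H_congr hp ?_ ?_
    · intro w w' _ _ h
      simp only [Prod.mk.injEq] at h ⊢
      obtain ⟨a1, a2, a3, a4⟩ := h
      rw [a1, a2, a3]
      exact ⟨rfl, rfl, rfl, a4⟩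
    · intro w w' _ _ h
      simp only [Prod.mk.injEq] at h ⊢
      obtain ⟨a1, a2, a3, a4⟩ := h
      rw [a2, a3] at a1
      exact ⟨add_left_injective _ a1, a2, a3, a4⟩
  have s10 : H p₀ (pt V T g n₀ b₀) =
      H p₀ (fun ω => (n₀ ω + g (T ω) (V ω), (T ω, b₀ ω))) := rfl
  unfold CH at h1 h2 ⊢
  linarith

include hp in
theorem stepT_t (h1 : CH p₀ n₀ b₀ - CH p₀ n₀ (fun ω => (V ω, (T ω, b₀ ω))) ≤ d)
    (h2 : CH p₀ (fun ω => n₀ ω + g (T ω) (V ω)) (fun ω => (T ω, b₀ ω)) -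
      CH p₀ (fun ω => n₀ ω + g (T ω) (V ω)) (fun ω => (V ω, (T ω, b₀ ω))) ≤ d) :
    (stepT (b₀ := b₀) (n₀ := n₀) hp V T g).t ≤ 2 * d := by
  have h0 := pE_nn (b₀ := b₀) (n₀ := n₀) hp V T g
  have s1 : CH (pE p₀ V T g n₀ b₀) (fun w => n₀ w.1)
      (fun w => (V w.1, (V w.2, (T w.1, b₀ w.1)))) ≤
      CH (pE p₀ V T g n₀ b₀) (fun w => n₀ w.1) (fun w => (n₀ w.2 - n₀ w.1, b₀ w.1)) := by
    refine CH_mono_cond h0 ?_
    intro w w' hw hw' h
    simp only [Prod.mk.injEq] at h ⊢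
    refine ⟨?_, h.2.2.2⟩
    rw [pE_disp hp V T g hw, pE_disp hp V T g hw', h.1, h.2.1, h.2.2.1]
  have s2 := pE_dep hp V T g h1 h2
  have g1 : (stepT (b₀ := b₀) (n₀ := n₀) hp V T g).t = CH p₀ n₀ b₀ -
      CH (pE p₀ V T g n₀ b₀) (fun w => n₀ w.1) (fun w => (n₀ w.2 - n₀ w.1, b₀ w.1)) := rfl
  rw [g1]
  linarith

/-- The next block. -/
noncomputable def nxtT (X : Blk p₀ b₀ n₀) : Blk p₀ b₀ n₀ :=
  Blk.comp (Blk.comp X (stepT hp V T g)) X.dbl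

theorem nxtT_dbl (X : Blk p₀ b₀ n₀) : X.dbl.h ≤ (nxtT hp V T g X).h := Blk.comp_h_right _ _

theorem nxtT_step (X : Blk p₀ b₀ n₀) :
    (Blk.comp X (stepT hp V T g)).h ≤ (nxtT hp V T g X).h := Blk.comp_h_left _ _

theorem nxtT_t (X : Blk p₀ b₀ n₀)
    (h1 : CH p₀ n₀ b₀ - CH p₀ n₀ (fun ω => (V ω, (T ω, b₀ ω))) ≤ d)
    (h2 : CH p₀ (fun ω => n₀ ω + g (T ω) (V ω)) (fun ω => (T ω, b₀ ω)) -
      CH p₀ (fun ω => n₀ ω + g (T ω) (V ω)) (fun ω => (V ω, (T ω, b₀ ω))) ≤ d) :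
    (nxtT hp V T g X).t ≤ 3 * X.t + 2 * d := by
  have i2 := stepT_t (b₀ := b₀) (n₀ := n₀) hp V T g h1 h2
  have i3 := Blk.comp_t X (stepT (b₀ := b₀) (n₀ := n₀) hp V T g)
  have i4 := Blk.comp_t (Blk.comp X (stepT hp V T g)) X.dbl
  have i5 := X.dbl_t
  unfold nxtT
  linarith

/-- **The pigeonhole.** -/
theorem pigeonT {η : ℝ} (n : ℕ)
    (h1 : CH p₀ n₀ b₀ - CH p₀ n₀ (fun ω => (V ω, (T ω, b₀ ω))) ≤ d)
    (h2 : CH p₀ (fun ω => n₀ ω + g (T ω) (V ω)) (fun ω => (T ω, b₀ ω)) -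
      CH p₀ (fun ω => n₀ ω + g (T ω) (V ω)) (fun ω => (V ω, (T ω, b₀ ω))) ≤ d)
    (hd : 0 ≤ d) (hn : CH p₀ n₀ b₀ < n * η) :
    ∃ X : Blk p₀ b₀ n₀, X.t ≤ 3 ^ n * d ∧ X.dbl.h ≤ X.h + η ∧
      (Blk.comp X (stepT hp V T g)).h ≤ X.h + η := by
  set S : ℕ → Blk p₀ b₀ n₀ := fun i => Nat.rec (Blk.triv hp) (fun _ X => nxtT hp V T g X) i with hS
  have hS1 : ∀ i, S (i + 1) = nxtT hp V T g (S i) := fun i => rfl
  have ht : ∀ i, (S i).t + d ≤ 3 ^ i * d := by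
    intro i
    induction i with
    | zero =>
      have : (S 0).t = 0 := Blk.triv_t hp
      rw [this]; simp
    | succ i ih =>
      have i1 := nxtT_t hp V T g (S i) h1 h2
      rw [← hS1] at i1
      have i3 : (3 : ℝ) ^ (i + 1) * d = 3 * (3 ^ i * d) := by ring
      rw [i3]
      linarith
  by_contra hcon
  push Not at hcon
  have hlt : ∀ i, i < n → (S i).h + η < (S (i + 1)).h := by
    intro i hi
    by_contra hle
    push Not at hle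
    have c1 : (S i).t ≤ 3 ^ n * d := by
      have a1 := ht i
      have a2 : (3 : ℝ) ^ i * d ≤ 3 ^ n * d :=
        mul_le_mul_of_nonneg_right (pow_le_pow_right₀ (by norm_num) hi.le) hd
      linarith
    have c2 : (S i).dbl.h ≤ (S i).h + η := (nxtT_dbl hp V T g (S i)).trans hle
    have c3 := hcon (S i) c1 c2
    have c4 := (nxtT_step hp V T g (S i)).trans hle
    linarith
  have hsum : ∀ i, i ≤ n → (i : ℝ) * η ≤ (S i).h := by
    intro i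
    induction i with
    | zero => intro _; simpa using (S 0).h_nonneg
    | succ i ih =>
      intro hi
      have a1 := ih (by omega)
      have a2 := hlt i (by omega)
      push_cast
      linarith
  have a1 := hsum n le_rfl
  have a2 := (S n).h_le
  linarith

end

end Pool.RC21
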