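import Pool.Agent.H21.RC.Step

/-!
# One world for all times

`X` is a block of the walk with random times. Its start (with the context) is the world. A fresh end
`R` of `X` absorbs every difference `g_T(V) - g_T(V')` of two labels through one point `(T, ν)`, where
the time `T` is random and not known, and every `g_T(V)` for a known typical time.
-/

set_option autoImplicit false
set_option linter.unusedSectionVars false
set_option linter.unusedVariables false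

namespace Pool.RC21

open Finset
open Pool.Agent.H49.Ent Pool.Agent.H32.Dense Pool.CH30

variable {Ω₀ : Type} [Fintype Ω₀] {G B A τ : Type} [AddCommGroup G]
  {p₀ : Ω₀ → ℝ} {b₀ : Ω₀ → B} {n₀ : Ω₀ → G}

section absorb

variable {Γ K S : Type} [Fintype Γ] (X : Blk p₀ b₀ n₀) {q : Γ → ℝ}

/-- **A known point is forgotten.** -/
theorem absorb (hq : ∀ ω, 0 ≤ q ω) {π : Γ → X.Ω} (hπ : Push q X.p π) (u : Γ → G) {z : Γ → K}
    (hz : Det q z (fun l => (X.x (π l), X.b (π l)))) :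
    CH (cp q (fun l => (X.x (π l), X.b (π l))) X.p (fun ω => (X.x ω, X.b ω)))
        (fun w => X.y w.2 + u w.1) (fun w => z w.1) ≤
      X.dbl.h + X.dbl.t + (CH q (fun l => X.y (π l) + u l) z -
        CH q (fun l => X.y (π l)) (fun l => (u l, z l))) := by
  obtain ⟨e, he⟩ : ∃ e : Γ → G × B, e = fun l => (X.x (π l), X.b (π l)) := ⟨_, rfl⟩
  obtain ⟨f, hf⟩ : ∃ f : X.Ω → G × B, f = fun ω => (X.x ω, X.b ω) := ⟨_, rfl⟩
  obtain ⟨ν, hν⟩ : ∃ ν : Γ → G, ν = fun l => X.y (π l) + u l := ⟨_, rfl⟩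
  have hl : ∀ s, law q e s = law X.p f s := by
    intro s
    rw [he, hf]
    exact hπ.law (fun ω => (X.x ω, X.b ω)) s
  have hz' : Det q (fun l => (ν l, z l)) e := by
    intro l l' a b h
    rw [he]
    exact hz l l' a b (Prod.ext_iff.mp h).2
  have hze : Det q z e := by rw [he]; exact hz
  have h0 := cp_nn (e := e) (f := f) hq X.nn
  have k1 := near_le X hq (e := e) (by rw [hf] at hl; exact hl) (z := fun l => (ν l, z l)) hz'
    (π := π) hπ (fun l _ => by rw [he]) (ν := ν) (u := u)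
    (fun _ _ _ _ h => (Prod.ext_iff.mp h).1) (fun l _ => by rw [hν])
  rw [← he, ← hf, ← hν]
  rw [← hf] at k1
  -- forget the point
  obtain ⟨Q, hQ⟩ : ∃ Q : Γ × X.Ω → ℝ, Q = cp q e X.p f := ⟨_, rfl⟩
  rw [← hQ] at k1 h0 ⊢
  have m1 := CH_mono_cond h0 (X := fun w => ν w.1)
    (W' := fun w => ((X.y w.2, u w.1), z w.1)) (W := fun w => (X.y w.2 + u w.1, z w.1))
    (fun w w' _ _ h => by
      simp only [Prod.mk.injEq] at h ⊢
      rw [h.1.1, h.1.2]
      exact ⟨rfl, h.2⟩)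
  have c1 := cp_indep hq X.nn hl hze X.y (fun w => (ν w, u w))
  have c2 := cp_indep hq X.nn hl hze X.y (fun w => u w)
  rw [← hQ] at c1 c2
  have e1 : H Q (fun w => (ν w.1, ((X.y w.2, u w.1), z w.1))) =
      H Q (fun w => (X.y w.2, ((ν w.1, u w.1), z w.1))) := by
    refine H_congr h0 ?_ ?_ <;>
    · intro w w' _ _ h
      simp only [Prod.mk.injEq] at h ⊢
      tauto
  have e2 : H Q (fun w => ((X.y w.2, u w.1), z w.1)) =
      H Q (fun w => (X.y w.2, (u w.1, z w.1))) := by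
    refine H_congr h0 ?_ ?_ <;>
    · intro w w' _ _ h
      simp only [Prod.mk.injEq] at h ⊢
      tauto
  have p1 : ∀ {S : Type} (Y : Γ → S), H Q (fun w => Y w.1) = H q Y := by
    intro S Y
    rw [hQ]
    exact (cp_push hq hl).H Y
  have e3 : H Q (fun w => ((ν w.1, u w.1), z w.1)) = H q (fun l => (ν l, (u l, z l))) := by
    rw [p1 (fun l => ((ν l, u l), z l))]
    refine H_congr hq ?_ ?_ <;>
    · intro w w' _ _ h
      simp only [Prod.mk.injEq] at h ⊢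
      tauto
  have e4 : H Q (fun w => (u w.1, z w.1)) = H q (fun l => (u l, z l)) := p1 (fun l => (u l, z l))
  have e5 : H q (fun l => (ν l, (u l, z l))) = H q (fun l => (X.y (π l), (u l, z l))) := by
    refine H_congr hq ?_ ?_
    · intro w w' _ _ h
      simp only [Prod.mk.injEq] at h ⊢
      rw [hν]
      simp only
      rw [h.1, h.2.1]
      exact ⟨rfl, rfl, h.2.2⟩
    · intro w w' _ _ h
      rw [hν] at h
      simp only [Prod.mk.injEq] at h ⊢
      obtain ⟨a1, a2, a3⟩ := h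
      rw [a2] at a1
      exact ⟨add_left_injective _ a1, a2, a3⟩
  have e6 : H Q (fun w => (ν w.1, (X.y w.2 + u w.1, z w.1))) =
      H Q (fun w => (X.y w.2 + u w.1, (ν w.1, z w.1))) := by
    refine H_congr h0 ?_ ?_ <;>
    · intro w w' _ _ h
      simp only [Prod.mk.injEq] at h ⊢
      tauto
  have e7 : H Q (fun w => (ν w.1, z w.1)) = H q (fun l => (ν l, z l)) := p1 (fun l => (ν l, z l))
  have e8 : H Q (fun w => z w.1) = H q z := p1 z
  unfold CH at k1 m1 c1 c2 ⊢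
  linarith

end absorb

section edge

variable (hp : ∀ ω, 0 ≤ p₀ ω) (V : Ω₀ → A) (T : Ω₀ → τ) (g : τ → A → G) (X : Blk p₀ b₀ n₀)

/-- The law of the block and one more step. -/
noncomputable def ed : X.Ω × (Ω₀ × Ω₀) → ℝ :=
  glue X.p (pE p₀ V T g n₀ b₀) (fun ω => (X.y ω, X.b ω)) (fun w => (n₀ w.1, b₀ w.1))

/-- The world. -/
def eE (w : X.Ω × (Ω₀ × Ω₀)) : G × B := (X.x w.1, X.b w.1)

/-- The two labels and the time. -/
def cE (w : X.Ω × (Ω₀ × Ω₀)) : A × (A × τ) := (V w.2.1, (V w.2.2, T w.2.1))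

include hp in
theorem ed_law (z : G × B) : law X.p (fun ω => (X.y ω, X.b ω)) z =
    law (pE p₀ V T g n₀ b₀) (fun w => (n₀ w.1, b₀ w.1)) z := by
  rw [X.ly, ← (pE_fst hp V T g).law (fun ω => (n₀ ω, b₀ ω)) z]

include hp in
theorem ed_nn : ∀ w, 0 ≤ ed V T g X w := glue_nonneg X.nn (pE_nn hp V T g)

include hp in
theorem ed_eq {w : X.Ω × (Ω₀ × Ω₀)} (hw : 0 < ed V T g X w) :
    (X.y w.1 = n₀ w.2.1 ∧ X.b w.1 = b₀ w.2.1) ∧
      (n₀ w.2.1 + g (T w.2.1) (V w.2.1) = n₀ w.2.2 + g (T w.2.2) (V w.2.2) ∧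
        T w.2.1 = T w.2.2 ∧ b₀ w.2.1 = b₀ w.2.2) := by
  have a1 := (glue_pos_iff X.nn (pE_nn hp V T g) w).mp hw
  have a2 := a1.2.2
  simp only [Prod.mk.injEq] at a2
  exact ⟨a2, pE_eq hp V T g a1.2.1⟩

include hp in
theorem ed_fst : Push (ed V T g X) X.p Prod.fst := push_fst X.nn (ed_law hp V T g X)

include hp in
theorem ed_snd : Push (ed V T g X) (pE p₀ V T g n₀ b₀) Prod.snd :=
  push_snd (pE_nn hp V T g) (ed_law hp V T g X)

include hp in
theorem ed_one : Push (ed V T g X) p₀ (fun w => w.2.1) := (pE_fst hp V T g).comp (ed_snd hp V T g X)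

include hp in
theorem ed_two : Push (ed V T g X) p₀ (fun w => w.2.2) := (pE_snd hp V T g).comp (ed_snd hp V T g X)

include hp in
/-- The labels given the end of the block. -/
theorem ed_snd_cond {S : Type} (Y : Ω₀ × Ω₀ → S) :
    CH (ed V T g X) (fun w => Y w.2) (fun w => (n₀ w.2.1, (X.x w.1, X.b w.1))) =
      CH (pE p₀ V T g n₀ b₀) Y (fun w => (n₀ w.1, b₀ w.1)) := by
  have hE := pE_nn (b₀ := b₀) (n₀ := n₀) hp V T g
  have h0 := ed_nn hp V T g X
  rw [← CH_snd_pair (T := G × B) X.nn hE (ed_law hp V T g X) (X := fun ω => (X.x ω, (X.y ω, X.b ω)))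
      (fun _ _ _ _ h => (Prod.ext_iff.mp h).2) Y (Y' := fun w => (n₀ w.1, b₀ w.1))
      (fun _ _ _ _ h => h)]
  refine CH_congr h0 ?_ ?_ ?_ ?_
  · intro w w' _ _ h
    exact (Prod.ext_iff.mp h).1
  · intro w w' _ _ h
    exact (Prod.ext_iff.mp h).1
  · intro w w' hw hw' h
    simp only [Prod.mk.injEq] at h ⊢
    have e := ed_eq hp V T g X hw
    have e' := ed_eq hp V T g X hw'
    rw [e.1.1, e'.1.1, ← e.1.2, ← e'.1.2]
    tauto
  · intro w w' hw hw' h
    simp only [Prod.mk.injEq] at h ⊢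
    tauto

variable {d : ℝ}

include hp in
/-- The end of the block is almost independent of the labels and the time. -/
theorem ed_end (h1 : CH p₀ n₀ b₀ - CH p₀ n₀ (fun ω => (V ω, (T ω, b₀ ω))) ≤ d)
    (h2 : CH p₀ (fun ω => n₀ ω + g (T ω) (V ω)) (fun ω => (T ω, b₀ ω)) -
      CH p₀ (fun ω => n₀ ω + g (T ω) (V ω)) (fun ω => (V ω, (T ω, b₀ ω))) ≤ d) :
    X.h - 2 * d ≤ CH (ed V T g X) (fun w => n₀ w.2.1) (fun w => (cE V T X w, eE X w)) := by
  have h0 := ed_nn hp V T g X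
  have hE := pE_nn (b₀ := b₀) (n₀ := n₀) hp V T g
  have s1 : CH (ed V T g X) (fun w => n₀ w.2.1) (eE X) = X.h := by
    have e1 : CH (ed V T g X) (fun w => X.y w.1) (fun w => (X.x w.1, X.b w.1)) = X.h :=
      (ed_fst hp V T g X).CH X.y (fun ω => (X.x ω, X.b ω))
    rw [← e1]
    exact CH_supp h0 (fun w hw => ((ed_eq hp V T g X hw).1.1).symm) (fun _ _ => rfl)
  have s2 := dep_symm h0 (fun w => n₀ w.2.1) (cE V T X) (eE X)
  have s3 : CH (ed V T g X) (cE V T X) (eE X) ≤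
      CH (pE p₀ V T g n₀ b₀) (fun w => (V w.1, (V w.2, T w.1))) (fun w => b₀ w.1) := by
    have a1 : CH (ed V T g X) (cE V T X) (eE X) ≤ CH (ed V T g X) (cE V T X) (fun w => X.b w.1) :=
      CH_mono_cond h0 (fun _ _ _ _ h => (Prod.ext_iff.mp h).2)
    have a2 : CH (ed V T g X) (cE V T X) (fun w => X.b w.1) =
        CH (pE p₀ V T g n₀ b₀) (fun w => (V w.1, (V w.2, T w.1))) (fun w => b₀ w.1) := by
      rw [← (ed_snd hp V T g X).CH (fun w => (V w.1, (V w.2, T w.1))) (fun w => b₀ w.1)]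
      exact CH_supp h0 (fun _ _ => rfl) (fun w hw => (ed_eq hp V T g X hw).1.2)
    linarith
  have s4 : CH (ed V T g X) (cE V T X) (fun w => (n₀ w.2.1, eE X w)) =
      CH (pE p₀ V T g n₀ b₀) (fun w => (V w.1, (V w.2, T w.1))) (fun w => (n₀ w.1, b₀ w.1)) :=
    ed_snd_cond hp V T g X (fun w => (V w.1, (V w.2, T w.1)))
  have s5 := dep_symm hE (fun w => n₀ w.1) (fun w => (V w.1, (V w.2, T w.1))) (fun w => b₀ w.1)
  have s6 : CH (pE p₀ V T g n₀ b₀) (fun w => n₀ w.1) (fun w => b₀ w.1) = CH p₀ n₀ b₀ :=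
    (pE_fst hp V T g).CH n₀ b₀
  have s7 := pE_dep hp V T g h1 h2
  have s8 : CH (pE p₀ V T g n₀ b₀) (fun w => n₀ w.1) (fun w => (V w.1, (V w.2, (T w.1, b₀ w.1)))) =
      CH (pE p₀ V T g n₀ b₀) (fun w => n₀ w.1) (fun w => ((V w.1, (V w.2, T w.1)), b₀ w.1)) := by
    refine CH_congr hE ?_ ?_ ?_ ?_ <;>
    · intro w w' _ _ h
      simp only [Prod.mk.injEq] at h ⊢
      tauto
  have s9 : CH (ed V T g X) (fun w => n₀ w.2.1) (fun w => (cE V T X w, eE X w)) =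
      CH (ed V T g X) (fun w => n₀ w.2.1) (eE X) -
        (CH (ed V T g X) (cE V T X) (eE X) -
          CH (ed V T g X) (cE V T X) (fun w => (n₀ w.2.1, eE X w))) := by linarith
  rw [s9, s1]
  linarith

include hp in
/-- **Absorption with unknown time.** -/
theorem ed_absorb (h1 : CH p₀ n₀ b₀ - CH p₀ n₀ (fun ω => (V ω, (T ω, b₀ ω))) ≤ d)
    (h2 : CH p₀ (fun ω => n₀ ω + g (T ω) (V ω)) (fun ω => (T ω, b₀ ω)) -
      CH p₀ (fun ω => n₀ ω + g (T ω) (V ω)) (fun ω => (V ω, (T ω, b₀ ω))) ≤ d) {η : ℝ}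
    (h3 : (Blk.comp X (stepT hp V T g)).h ≤ X.h + η) :
    CH (cp (ed V T g X) (eE X) X.p (fun ω => (X.x ω, X.b ω)))
        (fun w => X.y w.2 + (g (T w.1.2.1) (V w.1.2.1) - g (T w.1.2.1) (V w.1.2.2)))
        (fun w => eE X w.1) ≤ X.dbl.h + X.dbl.t + (η + 2 * d) := by
  have h0 := ed_nn hp V T g X
  have k := absorb X h0 (π := Prod.fst) (ed_fst hp V T g X)
    (fun w => g (T w.2.1) (V w.2.1) - g (T w.2.1) (V w.2.2)) (z := eE X) (fun _ _ _ _ h => h)
  have s1 : CH (ed V T g X) (fun l => X.y l.1 + (g (T l.2.1) (V l.2.1) - g (T l.2.1) (V l.2.2)))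
      (eE X) = (Blk.comp X (stepT hp V T g)).h := by
    have e1 : (Blk.comp X (stepT hp V T g)).h =
        CH (ed V T g X) (fun w => n₀ w.2.2) (fun w => (X.x w.1, X.b w.1)) := rfl
    rw [e1]
    refine CH_supp h0 (fun w hw => ?_) (fun _ _ => rfl)
    have e := ed_eq hp V T g X hw
    rw [e.1.1]
    have e2 := e.2.1
    rw [← e.2.2.1] at e2
    rw [add_sub_assoc', e2, add_sub_cancel_right]
  have s2 : CH (ed V T g X) (fun w => X.y w.1) (fun w => (cE V T X w, eE X w)) ≤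
      CH (ed V T g X) (fun w => X.y w.1)
        (fun l => (g (T l.2.1) (V l.2.1) - g (T l.2.1) (V l.2.2), eE X l)) := by
    refine CH_mono_cond h0 ?_
    intro w w' _ _ h
    simp only [cE, Prod.mk.injEq] at h ⊢
    obtain ⟨⟨a1, a2, a3⟩, a4⟩ := h
    rw [a1, a2, a3]
    exact ⟨rfl, a4⟩
  have s3 := ed_end hp V T g X h1 h2
  have s4 : CH (ed V T g X) (fun w => X.y w.1) (fun w => (cE V T X w, eE X w)) =
      CH (ed V T g X) (fun w => n₀ w.2.1) (fun w => (cE V T X w, eE X w)) :=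
    CH_supp h0 (fun w hw => (ed_eq hp V T g X hw).1.1) (fun _ _ => rfl)
  have k' : CH (cp (ed V T g X) (eE X) X.p (fun ω => (X.x ω, X.b ω)))
      (fun w => X.y w.2 + (g (T w.1.2.1) (V w.1.2.1) - g (T w.1.2.1) (V w.1.2.2)))
      (fun w => eE X w.1) ≤ X.dbl.h + X.dbl.t +
        (CH (ed V T g X) (fun l => X.y l.1 + (g (T l.2.1) (V l.2.1) - g (T l.2.1) (V l.2.2)))
          (eE X) - CH (ed V T g X) (fun w => X.y w.1)
        (fun l => (g (T l.2.1) (V l.2.1) - g (T l.2.1) (V l.2.2), eE X l))) := k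
  linarith

include hp in
/-- **Absorption at a known time.** -/
theorem ed_absorbT (h1 : CH p₀ n₀ b₀ - CH p₀ n₀ (fun ω => (V ω, (T ω, b₀ ω))) ≤ d)
    (h2 : CH p₀ (fun ω => n₀ ω + g (T ω) (V ω)) (fun ω => (T ω, b₀ ω)) -
      CH p₀ (fun ω => n₀ ω + g (T ω) (V ω)) (fun ω => (V ω, (T ω, b₀ ω))) ≤ d) {η : ℝ}
    (h3 : (Blk.comp X (stepT hp V T g)).h ≤ X.h + η) :
    CH (cp (ed V T g X) (eE X) X.p (fun ω => (X.x ω, X.b ω)))
        (fun w => X.y w.2 + g (T w.1.2.1) (V w.1.2.1))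
        (fun w => (T w.1.2.1, eE X w.1)) ≤ X.dbl.h + X.dbl.t + (η + 3 * d) := by
  have h0 := ed_nn hp V T g X
  have hE := pE_nn (b₀ := b₀) (n₀ := n₀) hp V T g
  have k : CH (cp (ed V T g X) (eE X) X.p (fun ω => (X.x ω, X.b ω)))
        (fun w => X.y w.2 + g (T w.1.2.1) (V w.1.2.1))
        (fun w => (T w.1.2.1, eE X w.1)) ≤ X.dbl.h + X.dbl.t +
        (CH (ed V T g X) (fun l => X.y l.1 + g (T l.2.1) (V l.2.1)) (fun l => (T l.2.1, eE X l)) -
          CH (ed V T g X) (fun w => X.y w.1)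
            (fun l => (g (T l.2.1) (V l.2.1), (T l.2.1, eE X l)))) :=
    absorb X h0 (π := Prod.fst) (ed_fst hp V T g X)
      (fun w => g (T w.2.1) (V w.2.1)) (z := fun w => (T w.2.1, eE X w))
      (fun _ _ _ _ h => (Prod.ext_iff.mp h).2)
  have s2 : CH (ed V T g X) (fun w => X.y w.1) (fun w => (cE V T X w, eE X w)) ≤
      CH (ed V T g X) (fun w => X.y w.1)
        (fun l => (g (T l.2.1) (V l.2.1), (T l.2.1, eE X l))) := by
    refine CH_mono_cond h0 ?_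
    intro w w' _ _ h
    simp only [cE, Prod.mk.injEq] at h ⊢
    obtain ⟨⟨a1, a2, a3⟩, a4⟩ := h
    rw [a1, a3]
    exact ⟨rfl, rfl, a4⟩
  have s3 := ed_end hp V T g X h1 h2
  have s4 : CH (ed V T g X) (fun w => X.y w.1) (fun w => (cE V T X w, eE X w)) =
      CH (ed V T g X) (fun w => n₀ w.2.1) (fun w => (cE V T X w, eE X w)) :=
    CH_supp h0 (fun w hw => (ed_eq hp V T g X hw).1.1) (fun _ _ => rfl)
  -- the entropy of the middle point
  obtain ⟨ν, hν⟩ : ∃ ν : X.Ω × (Ω₀ × Ω₀) → G, ν = fun l => n₀ l.2.2 + g (T l.2.2) (V l.2.2) :=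
    ⟨_, rfl⟩
  have t0 : CH (ed V T g X) (fun l => X.y l.1 + g (T l.2.1) (V l.2.1))
      (fun l => (T l.2.1, eE X l)) = CH (ed V T g X) ν (fun l => (T l.2.2, eE X l)) := by
    rw [hν]
    refine CH_supp h0 (fun w hw => ?_) (fun w hw => ?_)
    · have e := ed_eq hp V T g X hw
      rw [e.1.1, e.2.1]
    · rw [(ed_eq hp V T g X hw).2.2.1]
  have t1 := dep_symm h0 ν (fun l => V l.2.2) (fun l => (T l.2.2, eE X l))
  have t2 : CH (ed V T g X) ν (fun l => (V l.2.2, (T l.2.2, eE X l))) ≤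
      (Blk.comp X (stepT hp V T g)).h := by
    have e1 : (Blk.comp X (stepT hp V T g)).h =
        CH (ed V T g X) (fun w => n₀ w.2.2) (eE X) := rfl
    have e2 : CH (ed V T g X) ν (fun l => (V l.2.2, (T l.2.2, eE X l))) =
        CH (ed V T g X) (fun w => n₀ w.2.2) (fun l => (V l.2.2, (T l.2.2, eE X l))) := by
      rw [hν]
      refine CH_congr h0 ?_ ?_ (fun _ _ _ _ h => h) (fun _ _ _ _ h => h)
      · intro w w' _ _ h
        simp only [Prod.mk.injEq] at h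
        obtain ⟨a1, a2, a3, a4⟩ := h
        rw [a2, a3] at a1
        exact add_left_injective _ a1
      · intro w w' _ _ h
        simp only [Prod.mk.injEq] at h
        obtain ⟨a1, a2, a3, a4⟩ := h
        show n₀ w.2.2 + g (T w.2.2) (V w.2.2) = n₀ w'.2.2 + g (T w'.2.2) (V w'.2.2)
        rw [a1, a2, a3]
    have e3 := CH_mono_cond h0 (X := fun w => n₀ w.2.2)
      (W' := fun l => (V l.2.2, (T l.2.2, eE X l))) (W := eE X)
      (fun _ _ _ _ h => (Prod.ext_iff.mp (Prod.ext_iff.mp h).2).2)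
    rw [e1, e2]
    exact e3
  have t3 : CH (ed V T g X) (fun l => V l.2.2) (fun l => (T l.2.2, eE X l)) ≤
      CH p₀ V (fun ω => (T ω, b₀ ω)) := by
    have a1 : CH (ed V T g X) (fun l => V l.2.2) (fun l => (T l.2.2, eE X l)) ≤
        CH (ed V T g X) (fun l => V l.2.2) (fun l => (T l.2.2, b₀ l.2.2)) := by
      refine CH_mono_cond h0 ?_
      intro w w' hw hw' h
      simp only [eE, Prod.mk.injEq] at h ⊢
      have e := ed_eq hp V T g X hw
      have e' := ed_eq hp V T g X hw'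
      rw [← e.2.2.2, ← e'.2.2.2, ← e.1.2, ← e'.1.2]
      tauto
    have a2 : CH (ed V T g X) (fun l => V l.2.2) (fun l => (T l.2.2, b₀ l.2.2)) =
        CH p₀ V (fun ω => (T ω, b₀ ω)) :=
      (ed_two hp V T g X).CH V (fun ω => (T ω, b₀ ω))
    linarith
  have t4 : CH p₀ V (fun ω => (n₀ ω + g (T ω) (V ω), (T ω, b₀ ω))) ≤
      CH (ed V T g X) (fun l => V l.2.2) (fun l => (ν l, (T l.2.2, eE X l))) := by
    have a1 : CH (ed V T g X) (fun l => V l.2.2) (fun l => ((X.x l.1, (X.y l.1, X.b l.1)),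
        (V l.2.1, (n₀ l.2.1, (T l.2.1, b₀ l.2.1))))) ≤
        CH (ed V T g X) (fun l => V l.2.2) (fun l => (ν l, (T l.2.2, eE X l))) := by
      refine CH_mono_cond h0 ?_
      intro w w' hw hw' h
      rw [hν]
      simp only [eE, Prod.mk.injEq] at h ⊢
      have e := ed_eq hp V T g X hw
      have e' := ed_eq hp V T g X hw'
      obtain ⟨⟨a1, a2, a3⟩, a4, a5, a6, a7⟩ := h
      rw [← e.2.1, ← e'.2.1, ← e.2.2.1, ← e'.2.2.1, a4, a5, a6]
      exact ⟨rfl, rfl, a1, a3⟩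
    have a2 : CH (ed V T g X) (fun l => V l.2.2) (fun l => ((X.x l.1, (X.y l.1, X.b l.1)),
        (V l.2.1, (n₀ l.2.1, (T l.2.1, b₀ l.2.1))))) =
        CH (pE p₀ V T g n₀ b₀) (fun ω => V ω.2) (fun ω => (V ω.1, (n₀ ω.1, (T ω.1, b₀ ω.1)))) :=
      CH_snd_pair (T := G × B) X.nn hE (ed_law hp V T g X) (X := fun ω => (X.x ω, (X.y ω, X.b ω)))
        (fun _ _ _ _ h => (Prod.ext_iff.mp h).2) (fun ω => V ω.2)
        (Y' := fun ω => (V ω.1, (n₀ ω.1, (T ω.1, b₀ ω.1))))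
        (fun _ _ _ _ h => by
          simp only [Prod.mk.injEq] at h ⊢
          exact ⟨h.2.1, h.2.2.2⟩)
    have a3 : CH (pE p₀ V T g n₀ b₀) (fun ω => V ω.2)
        (fun ω => (V ω.1, (n₀ ω.1, (T ω.1, b₀ ω.1)))) =
        CH p₀ V (pt V T g n₀ b₀) :=
      CH_snd_fst (T := G × (τ × B)) (Z₁ := pt V T g n₀ b₀) (Z₂ := pt V T g n₀ b₀) hp hp
        (fun _ => rfl) (X := fun ω => (V ω, (n₀ ω, (T ω, b₀ ω))))
        (by
          intro w w' _ _ h
          simp only [pt, Prod.mk.injEq] at h ⊢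
          obtain ⟨a, b, c, e⟩ := h
          rw [a, b, c]; exact ⟨rfl, rfl, e⟩) V
    have a4 : CH p₀ V (pt V T g n₀ b₀) =
        CH p₀ V (fun ω => (n₀ ω + g (T ω) (V ω), (T ω, b₀ ω))) := rfl
    linarith
  have t5 := dep_symm hp (fun ω => n₀ ω + g (T ω) (V ω)) V (fun ω => (T ω, b₀ ω))
  linarith

include hp in
/-- The labels and the time are almost independent of each other and of the world. -/
theorem ed_full (h1 : CH p₀ n₀ b₀ - CH p₀ n₀ (fun ω => (V ω, (T ω, b₀ ω))) ≤ d)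
    (h2 : CH p₀ (fun ω => n₀ ω + g (T ω) (V ω)) (fun ω => (T ω, b₀ ω)) -
      CH p₀ (fun ω => n₀ ω + g (T ω) (V ω)) (fun ω => (V ω, (T ω, b₀ ω))) ≤ d) :
    2 * CH p₀ V (fun ω => (T ω, b₀ ω)) + CH p₀ T b₀ - 2 * d ≤
      CH (ed V T g X) (cE V T X) (eE X) := by
  have h0 := ed_nn hp V T g X
  have hE := pE_nn (b₀ := b₀) (n₀ := n₀) hp V T g
  have s0 : CH (ed V T g X) (cE V T X) (fun w => (n₀ w.2.1, eE X w)) ≤
      CH (ed V T g X) (cE V T X) (eE X) :=
    CH_mono_cond h0 (fun _ _ _ _ h => (Prod.ext_iff.mp h).2)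
  have s4 : CH (ed V T g X) (cE V T X) (fun w => (n₀ w.2.1, eE X w)) =
      CH (pE p₀ V T g n₀ b₀) (fun w => (V w.1, (V w.2, T w.1))) (fun w => (n₀ w.1, b₀ w.1)) :=
    ed_snd_cond hp V T g X (fun w => (V w.1, (V w.2, T w.1)))
  have s5 := pE_H (b₀ := b₀) (n₀ := n₀) hp V T g
  have s6 : H (pE p₀ V T g n₀ b₀) (fun w => ((V w.1, (V w.2, T w.1)), (n₀ w.1, b₀ w.1))) =
      H (pE p₀ V T g n₀ b₀) (fun w => (n₀ w.1, (V w.1, (V w.2, (T w.1, b₀ w.1))))) := by
    refine H_congr hE ?_ ?_ <;>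
    · intro w w' _ _ h
      simp only [Prod.mk.injEq] at h ⊢
      tauto
  have s7 : H (pE p₀ V T g n₀ b₀) (fun w => (n₀ w.1, b₀ w.1)) = H p₀ (fun ω => (n₀ ω, b₀ ω)) :=
    (pE_fst hp V T g).H (fun ω => (n₀ ω, b₀ ω))
  have s9 : H p₀ (fun ω => (n₀ ω + g (T ω) (V ω), (V ω, (T ω, b₀ ω)))) =
      H p₀ (fun ω => (n₀ ω, (V ω, (T ω, b₀ ω)))) := by
    refine H_congr hp ?_ ?_
    · intro w w' _ _ h
      simp only [Prod.mk.injEq] at h ⊢
      obtain ⟨a1, a2, a3, a4⟩ := h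
      rw [a1, a2, a3]
      exact ⟨rfl, rfl, rfl, a4⟩
    · intro w w' _ _ h
      simp only [Prod.mk.injEq] at h ⊢
      obtain ⟨a1, a2, a3, a4⟩ := h
      rw [a2, a3] at a1
      exact ⟨add_left_injective _ a1, a2, a3, a4⟩
  have s10 : H p₀ (pt V T g n₀ b₀) =
      H p₀ (fun ω => (n₀ ω + g (T ω) (V ω), (T ω, b₀ ω))) := rfl
  unfold CH at h1 h2 s0 s4 ⊢
  linarith

end edge

end Pool.RC21
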